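import Pool.Agent.PLX.StmtsA

set_option autoImplicit false

namespace Pool.Agent.PLX.H16

open Module

theorem prod_snd {B : Type} [AddCommGroup B] [Module ℚ B] (l : List (Module.End ℚ B × ℝ)) :
    l.prod.2 = (l.map Prod.snd).prod := by
  induction l with
  | nil => rfl
  | cons q l ih => rw [List.prod_cons, List.map_cons, List.prod_cons, Prod.snd_mul, ih]

theorem lift_list {B : Type} [AddCommGroup B] [Module ℚ B] {Q : Set (Module.End ℚ B × ℝ)}
    (l : List ℝ) (h : ∀ r ∈ l, r ∈ Prod.snd '' Q) :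
    ∃ l' : List (Module.End ℚ B × ℝ), l'.length = l.length ∧ (∀ q ∈ l', q ∈ Q) ∧
      l.prod = l'.prod.2 := by
  induction l with
  | nil => exact ⟨[], rfl, by simp, rfl⟩
  | cons r l ih =>
    obtain ⟨l', h1, h2, h3⟩ := ih fun r hr => h r (List.mem_cons_of_mem _ hr)
    obtain ⟨q, hq, hqr⟩ := h r List.mem_cons_self
    refine ⟨q :: l', by simp [h1], ?_, ?_⟩
    · intro p hp
      rcases List.mem_cons.1 hp with rfl | hp
      · exact hq
      · exact h2 p hp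
    · rw [List.prod_cons, List.prod_cons, Prod.snd_mul, h3, hqr]

/-- **BC2** -/
theorem bc2 (hgen : GenStmt) (hfif : FifStmt) (hlio : LioStmt) (hkil : KilStmt)
    (hfld : FldStmt) (hfun : FunStmt) : Bc2Stmt := by
  intro B _ _ E _ _ f V Q a e m N K ρ x hD hfd hB he hρ hK hm hbs hinj hEig hw hN hKN hax hψ
  classical
  obtain ⟨hfF, hFle⟩ := hfif B Q a x hfd hEig hax
  obtain ⟨k, hk⟩ : ∃ k, k = finrank ℚ (Algebra.adjoin ℚ (Prod.snd '' Q)) := ⟨_, rfl⟩
  rw [← hk, hB] at hFle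
  have hmem : ∀ l : List (Module.End ℚ B × ℝ), (∀ q ∈ l, q ∈ Q) →
      l.prod.2 ∈ Algebra.adjoin ℚ (Prod.snd '' Q) := by
    intro l hl
    rw [prod_snd]
    apply Subalgebra.list_prod_mem
    intro r hr
    obtain ⟨q, hq, rfl⟩ := List.mem_map.1 hr
    exact Algebra.subset_adjoin ⟨q, hl q hq, rfl⟩
  have hmem2 : ∀ l : List (Module.End ℚ B × ℝ), (∀ q ∈ l, q ∈ Q) →
      l.prod ∈ Algebra.adjoin ℚ Q := by
    intro l hl
    apply Subalgebra.list_prod_mem
    intro q hq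
    exact Algebra.subset_adjoin (hl q hq)
  have hN' : 2 * ((k + 1) * (1 + m) * m ^ (k + 1)) ^ k < N := by
    refine lt_of_le_of_lt (Nat.mul_le_mul_left 2 ?_) hN
    have h1 : (k + 1) * (1 + m) * m ^ (k + 1) ≤ (e + 1) * (1 + m) * m ^ (e + 1) := by
      apply Nat.mul_le_mul
      · exact Nat.mul_le_mul_right _ (by omega)
      · exact Nat.pow_le_pow_right hm (by omega)
    have h2 : 1 ≤ (e + 1) * (1 + m) * m ^ (e + 1) := by
      have h3 : 0 < m ^ (e + 1) := pow_pos (show 0 < m by omega) _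
      have h4 : 0 < (e + 1) * (1 + m) := Nat.mul_pos (by omega) (by omega)
      exact Nat.mul_pos h4 h3
    exact (Nat.pow_le_pow_left h1 k).trans (Nat.pow_le_pow_right h2 hFle)
  have hKN' : ((k + 1 : ℕ) : ℝ) * N * K ^ (k + 1 + 1) * ρ ≤ 1 := by
    refine le_trans ?_ hKN
    apply mul_le_mul_of_nonneg_right _ hρ.le
    have h1 : ((k + 1 : ℕ) : ℝ) ≤ (e : ℝ) + 1 := by
      push_cast
      have : (k : ℝ) ≤ e := by exact_mod_cast hFle
      linarith
    have h2 : K ^ (k + 1 + 1) ≤ K ^ (e + 2) := pow_le_pow_right₀ hK (by omega)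
    apply mul_le_mul _ h2 (by positivity) (by positivity)
    exact mul_le_mul_of_nonneg_right h1 (Nat.cast_nonneg _)
  have hfld' : ∀ q ∈ Algebra.adjoin ℚ Q, q.2 = 0 → q = 0 := by
    refine hfld B Q k hfF hk.symm ?_
    intro w hwl
    choose l hl1 hl2 hl3 using hwl
    have hwi : ∀ i, (∀ y ∈ V, ‖f y‖ ≤ ρ → Mlt f V K (w i).1 y) ∧ Alg e m (w i).2 := by
      intro i
      rw [hl3 i]
      exact hw (l i) (hl2 i) ((hl1 i).trans (by omega))
    obtain ⟨n, hn0, hn1, hn2⟩ := hlio (Algebra.adjoin ℚ (Prod.snd '' Q)) k e m N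
      (fun i => (w i).2) hfF hk.symm (fun i => ⟨by rw [hl3 i]; exact hmem (l i) (hl2 i), (hwi i).2⟩)
      hN'
    refine ⟨n, hn0, ?_⟩
    exact hkil B E f V a (k + 1) N K ρ w n hD hbs hK hρ.le hinj
      (fun i => by rw [hl3 i]; exact eig_adjoin hEig _ (hmem2 (l i) (hl2 i)))
      (fun i => (hwi i).1) hn1 hKN' hn2
  have hfin := hfun B Q a x hfd hEig hax hfld' hψ
  obtain ⟨w, hwi, hwl⟩ := hgen (Prod.snd '' Q) e hfF (hfin.trans hB)
  refine ⟨w, hwi, fun i => ?_⟩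
  obtain ⟨l, hl1, hl2, hl3⟩ := hwl i
  obtain ⟨l', h1, h2, h3⟩ := lift_list l hl2
  exact ⟨l', by omega, h2, hl3.trans h3⟩

end Pool.Agent.PLX.H16
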